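import Mathlib

/-!
# Scalar inequalities for regular tetrahedra of edge `1` in the cube `[-1/2,1/2]^3`
-/

namespace Pool.Agent.Helper14.TET

lemma sq_le_of_abs {x : ℝ} (h1 : -(1 / 2) ≤ x) (h2 : x ≤ 1 / 2) : x ^ 2 ≤ 1 / 4 := by nlinarith

/-- Cauchy for three coordinates. -/
lemma cauchy3 (a b c x y z : ℝ) :
    (a * x + b * y + c * z) ^ 2 ≤ (a ^ 2 + b ^ 2 + c ^ 2) * (x ^ 2 + y ^ 2 + z ^ 2) := by
  nlinarith [sq_nonneg (a * y - b * x), sq_nonneg (a * z - c * x), sq_nonneg (b * z - c * y)]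

/-- (alpha): no face cuts both points of one axis. -/
lemma alpha (w1 w2 w3 x1 x2 x3 b : ℝ) (hw : w1 ^ 2 + w2 ^ 2 + w3 ^ 2 = 3 / 8)
    (hb : b = 1 - 2 * (w1 * x1 + w2 * x2 + w3 * x3))
    (h1 : -(1 / 2) ≤ x1) (h1' : x1 ≤ 1 / 2) (h2 : x2 ^ 2 ≤ 1 / 4) (h3 : x3 ^ 2 ≤ 1 / 4)
    (c1 : b + 2 * (23 / 250) * w1 ≤ 0) (c2 : b - 2 * (23 / 250) * w1 ≤ 0) : False := by
  have hx : x1 ^ 2 ≤ 1 / 4 := sq_le_of_abs h1 h1'
  -- convexity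
  have hc : b + 2 * (23 / 125 * x1) * w1 ≤ 0 := by nlinarith
  have h5 : 1 / 2 ≤ w1 * (102 / 125 * x1) + w2 * x2 + w3 * x3 := by rw [hb] at hc; linarith
  have h6 := cauchy3 w1 w2 w3 (102 / 125 * x1) x2 x3
  rw [hw] at h6
  have h7 : (1 / 2 : ℝ) ^ 2 ≤ (w1 * (102 / 125 * x1) + w2 * x2 + w3 * x3) ^ 2 :=
    pow_le_pow_left₀ (by norm_num) h5 2
  nlinarith

/-- three numbers in `[-1/2,1/2]`: the mean `m` satisfies `m^2 <= 1/4 - kappa * Q`. -/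
lemma mean_aux (u q : ℝ) (hu0 : 0 ≤ u) (hu : u ≤ 1 / 2) (hq : q ≤ 3 / 2) (hq0 : 0 ≤ q)
    (hqu : q ≤ 18 * u ^ 2) : (1368 / 10000) * q ≤ u - u ^ 2 := by
  by_cases h : u ≤ 2887 / 10000
  · nlinarith
  · push Not at h
    nlinarith

lemma mean_bound (a b c : ℝ) (ha : -(1 / 2) ≤ a) (ha' : a ≤ 1 / 2) (hb : -(1 / 2) ≤ b)
    (hb' : b ≤ 1 / 2) (hc : -(1 / 2) ≤ c) (hc' : c ≤ 1 / 2)
    (hQ : (a - b) ^ 2 + (a - c) ^ 2 + (b - c) ^ 2 ≤ 3 / 2) :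
    ((a + b + c) / 3) ^ 2 ≤
      1 / 4 - (1368 / 10000) * ((a - b) ^ 2 + (a - c) ^ 2 + (b - c) ^ 2) := by
  have h0 : 0 ≤ (a - b) ^ 2 + (a - c) ^ 2 + (b - c) ^ 2 := by positivity
  have key1 : (a - b) ^ 2 + (a - c) ^ 2 + (b - c) ^ 2 ≤ 18 * (1 / 2 - (a + b + c) / 3) ^ 2 := by
    nlinarith [mul_nonneg (sub_nonneg.2 ha') (sub_nonneg.2 hb'),
      mul_nonneg (sub_nonneg.2 ha') (sub_nonneg.2 hc'),
      mul_nonneg (sub_nonneg.2 hb') (sub_nonneg.2 hc')]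
  have key2 : (a - b) ^ 2 + (a - c) ^ 2 + (b - c) ^ 2 ≤ 18 * (1 / 2 + (a + b + c) / 3) ^ 2 := by
    nlinarith [mul_nonneg (sub_nonneg.2 ha) (sub_nonneg.2 hb),
      mul_nonneg (sub_nonneg.2 ha) (sub_nonneg.2 hc),
      mul_nonneg (sub_nonneg.2 hb) (sub_nonneg.2 hc)]
  by_cases hm : 0 ≤ (a + b + c) / 3
  · have := mean_aux (1 / 2 - (a + b + c) / 3) _ (by linarith) (by linarith) hQ h0 key1
    nlinarith
  · push Not at hm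
    have := mean_aux (1 / 2 + (a + b + c) / 3) _ (by linarith) (by linarith) hQ h0 key2
    nlinarith

/-- Bessel: the squared differences of the coordinates of an equilateral triangle of edge 1. -/
lemma bessel (e f e2 f2 e3 f3 : ℝ) (he : e ^ 2 + e2 ^ 2 + e3 ^ 2 = 1)
    (hf : f ^ 2 + f2 ^ 2 + f3 ^ 2 = 1) (hef : e * f + e2 * f2 + e3 * f3 = 1 / 2) :
    e ^ 2 + f ^ 2 + (e - f) ^ 2 ≤ 3 / 2 := by
  have h1 : 0 ≤ (1 - (4 / 3 * (e - f / 2)) * e - (4 / 3 * (f - e / 2)) * f) ^ 2 +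
      ((4 / 3 * (e - f / 2)) * e2 + (4 / 3 * (f - e / 2)) * f2) ^ 2 +
      ((4 / 3 * (e - f / 2)) * e3 + (4 / 3 * (f - e / 2)) * f3) ^ 2 := by positivity
  have h2 : (1 - (4 / 3 * (e - f / 2)) * e - (4 / 3 * (f - e / 2)) * f) ^ 2 +
      ((4 / 3 * (e - f / 2)) * e2 + (4 / 3 * (f - e / 2)) * f2) ^ 2 +
      ((4 / 3 * (e - f / 2)) * e3 + (4 / 3 * (f - e / 2)) * f3) ^ 2 =
      1 - 4 / 3 * (e ^ 2 + f ^ 2 - e * f) := by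
    linear_combination (4 / 3 * (e - f / 2)) ^ 2 * he + (4 / 3 * (f - e / 2)) ^ 2 * hf +
      2 * (4 / 3 * (e - f / 2)) * (4 / 3 * (f - e / 2)) * hef
  nlinarith

end Pool.Agent.Helper14.TET
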