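import Pool.Agent.Helper14.TET.Alg

/-!
# Scalar inequalities: the three cases
-/

namespace Pool.Agent.Helper14.TET

lemma bd_7706 (p : ℝ) (h : p ^ 2 ≤ 19 / 32) : -(7706 / 10000) ≤ p ∧ p ≤ 7706 / 10000 := by
  constructor <;> nlinarith

/-- The face bound: the barycentric coordinate of the centre with respect to the vertex `D`. -/
lemma face_bound (a1 a2 a3 b1 b2 b3 c1 c2 c3 d1 d2 d3 : ℝ)
    (AB : (a1 - b1) ^ 2 + (a2 - b2) ^ 2 + (a3 - b3) ^ 2 = 1)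
    (AC : (a1 - c1) ^ 2 + (a2 - c2) ^ 2 + (a3 - c3) ^ 2 = 1)
    (AD : (a1 - d1) ^ 2 + (a2 - d2) ^ 2 + (a3 - d3) ^ 2 = 1)
    (BC : (b1 - c1) ^ 2 + (b2 - c2) ^ 2 + (b3 - c3) ^ 2 = 1)
    (BD : (b1 - d1) ^ 2 + (b2 - d2) ^ 2 + (b3 - d3) ^ 2 = 1)
    (CD : (c1 - d1) ^ 2 + (c2 - d2) ^ 2 + (c3 - d3) ^ 2 = 1)
    (ha1 : -(1 / 2) ≤ a1 ∧ a1 ≤ 1 / 2) (ha2 : -(1 / 2) ≤ a2 ∧ a2 ≤ 1 / 2)
    (ha3 : -(1 / 2) ≤ a3 ∧ a3 ≤ 1 / 2) (hb1 : -(1 / 2) ≤ b1 ∧ b1 ≤ 1 / 2)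
    (hb2 : -(1 / 2) ≤ b2 ∧ b2 ≤ 1 / 2) (hb3 : -(1 / 2) ≤ b3 ∧ b3 ≤ 1 / 2)
    (hc1 : -(1 / 2) ≤ c1 ∧ c1 ≤ 1 / 2) (hc2 : -(1 / 2) ≤ c2 ∧ c2 ≤ 1 / 2)
    (hc3 : -(1 / 2) ≤ c3 ∧ c3 ≤ 1 / 2) (t : ℝ)
    (hD : t = ((a1 + b1 + c1 - 3 * d1) / 4) * (2 * ((a1 + b1 + c1) / 3)) +
      ((a2 + b2 + c2 - 3 * d2) / 4) * (2 * ((a2 + b2 + c2) / 3)) +
      ((a3 + b3 + c3 - 3 * d3) / 4) * (2 * ((a3 + b3 + c3) / 3))) :
    t ^ 2 ≤ 5094 / 10000 := by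
  have hn : ((a1 + b1 + c1 - 3 * d1) / 4) ^ 2 + ((a2 + b2 + c2 - 3 * d2) / 4) ^ 2 +
      ((a3 + b3 + c3 - 3 * d3) / 4) ^ 2 = 3 / 8 := by
    linear_combination (3 / 16) * AD + (3 / 16) * BD + (3 / 16) * CD - (1 / 16) * AB -
      (1 / 16) * AC - (1 / 16) * BC
  have hef : (a1 - b1) * (a1 - c1) + (a2 - b2) * (a2 - c2) + (a3 - b3) * (a3 - c3) = 1 / 2 := by
    linear_combination (1 / 2) * AB + (1 / 2) * AC - (1 / 2) * BC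
  have q1 := bessel (a1 - b1) (a1 - c1) (a2 - b2) (a2 - c2) (a3 - b3) (a3 - c3) AB AC hef
  have q2 := bessel (a2 - b2) (a2 - c2) (a1 - b1) (a1 - c1) (a3 - b3) (a3 - c3)
    (by linear_combination AB) (by linear_combination AC) (by linear_combination hef)
  have q3 := bessel (a3 - b3) (a3 - c3) (a1 - b1) (a1 - c1) (a2 - b2) (a2 - c2)
    (by linear_combination AB) (by linear_combination AC) (by linear_combination hef)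
  have r : ∀ a b c : ℝ, (a - b) ^ 2 + (a - c) ^ 2 + ((a - b) - (a - c)) ^ 2 ≤ 3 / 2 →
      (a - b) ^ 2 + (a - c) ^ 2 + (b - c) ^ 2 ≤ 3 / 2 := by
    intro a b c h
    have h2 : ((a - b) - (a - c)) ^ 2 = (b - c) ^ 2 := by ring
    rwa [h2] at h
  have m1 := mean_bound a1 b1 c1 ha1.1 ha1.2 hb1.1 hb1.2 hc1.1 hc1.2 (r _ _ _ q1)
  have m2 := mean_bound a2 b2 c2 ha2.1 ha2.2 hb2.1 hb2.2 hc2.1 hc2.2 (r _ _ _ q2)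
  have m3 := mean_bound a3 b3 c3 ha3.1 ha3.2 hb3.1 hb3.2 hc3.1 hc3.2 (r _ _ _ q3)
  have hm : ((a1 + b1 + c1) / 3) ^ 2 + ((a2 + b2 + c2) / 3) ^ 2 + ((a3 + b3 + c3) / 3) ^ 2 ≤
      3396 / 10000 := by
    clear r q1 q2 q3 hef hn ha1 ha2 ha3 hb1 hb2 hb3 hc1 hc2 hc3 AD BD CD hD
    generalize ((a1 + b1 + c1) / 3) ^ 2 = z1 at *
    generalize ((a2 + b2 + c2) / 3) ^ 2 = z2 at *
    generalize ((a3 + b3 + c3) / 3) ^ 2 = z3 at *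
    generalize (a1 - b1) ^ 2 = y1 at *
    generalize (a2 - b2) ^ 2 = y2 at *
    generalize (a3 - b3) ^ 2 = y3 at *
    generalize (a1 - c1) ^ 2 = x1 at *
    generalize (a2 - c2) ^ 2 = x2 at *
    generalize (a3 - c3) ^ 2 = x3 at *
    generalize (b1 - c1) ^ 2 = w1 at *
    generalize (b2 - c2) ^ 2 = w2 at *
    generalize (b3 - c3) ^ 2 = w3 at *
    linarith
  have hcs := cauchy3 ((a1 + b1 + c1 - 3 * d1) / 4) ((a2 + b2 + c2 - 3 * d2) / 4)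
    ((a3 + b3 + c3 - 3 * d3) / 4) (2 * ((a1 + b1 + c1) / 3)) (2 * ((a2 + b2 + c2) / 3))
    (2 * ((a3 + b3 + c3) / 3))
  rw [← hD, hn] at hcs
  calc t ^ 2 ≤ 3 / 8 * ((2 * ((a1 + b1 + c1) / 3)) ^ 2 + (2 * ((a2 + b2 + c2) / 3)) ^ 2 +
        (2 * ((a3 + b3 + c3) / 3)) ^ 2) := hcs
    _ = 3 / 2 * (((a1 + b1 + c1) / 3) ^ 2 + ((a2 + b2 + c2) / 3) ^ 2 +
        ((a3 + b3 + c3) / 3) ^ 2) := by ring
    _ ≤ 3 / 2 * (3396 / 10000) := by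
        apply mul_le_mul_of_nonneg_left hm (by norm_num)
    _ ≤ 5094 / 10000 := by norm_num

lemma fin_aux (t : ℝ) (h1 : 7164 / 10000 ≤ t) (h2 : t ^ 2 ≤ 5094 / 10000) : False := by
  nlinarith

lemma low_aux (pA pB pC wa wb wa' wc s1 s2 : ℝ) (hs1 : s1 = 1 ∨ s1 = -1)
    (hs2 : s2 = 1 ∨ s2 = -1) (p1 : -(7706 / 10000) ≤ wa / 2 - wb ∧ wa / 2 - wb ≤ 7706 / 10000)
    (p2 : -(7706 / 10000) ≤ wa' / 2 - wc ∧ wa' / 2 - wc ≤ 7706 / 10000)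
    (cA1 : pA + 2 * (23 / 250) * s1 * wa ≤ 0) (cA2 : pA + 2 * (23 / 250) * s2 * wa' ≤ 0)
    (cB : pB - 2 * (23 / 250) * s1 * wb ≤ 0) (cC : pC - 2 * (23 / 250) * s2 * wc ≤ 0) :
    7164 / 10000 ≤ 1 - pA - pB - pC := by
  obtain ⟨p11, p12⟩ := p1
  obtain ⟨p21, p22⟩ := p2
  rcases hs1 with rfl | rfl <;> rcases hs2 with rfl | rfl <;> linarith

/-- (beta3): faces `A, B` for the first axis, `A, C` for the second. -/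
lemma beta3 (a1 a2 a3 b1 b2 b3 c1 c2 c3 d1 d2 d3 s1 s2 : ℝ)
    (hs1 : s1 = 1 ∨ s1 = -1) (hs2 : s2 = 1 ∨ s2 = -1)
    (AB : (a1 - b1) ^ 2 + (a2 - b2) ^ 2 + (a3 - b3) ^ 2 = 1)
    (AC : (a1 - c1) ^ 2 + (a2 - c2) ^ 2 + (a3 - c3) ^ 2 = 1)
    (AD : (a1 - d1) ^ 2 + (a2 - d2) ^ 2 + (a3 - d3) ^ 2 = 1)
    (BC : (b1 - c1) ^ 2 + (b2 - c2) ^ 2 + (b3 - c3) ^ 2 = 1)
    (BD : (b1 - d1) ^ 2 + (b2 - d2) ^ 2 + (b3 - d3) ^ 2 = 1)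
    (CD : (c1 - d1) ^ 2 + (c2 - d2) ^ 2 + (c3 - d3) ^ 2 = 1)
    (ha1 : -(1 / 2) ≤ a1 ∧ a1 ≤ 1 / 2) (ha2 : -(1 / 2) ≤ a2 ∧ a2 ≤ 1 / 2)
    (ha3 : -(1 / 2) ≤ a3 ∧ a3 ≤ 1 / 2) (hb1 : -(1 / 2) ≤ b1 ∧ b1 ≤ 1 / 2)
    (hb2 : -(1 / 2) ≤ b2 ∧ b2 ≤ 1 / 2) (hb3 : -(1 / 2) ≤ b3 ∧ b3 ≤ 1 / 2)
    (hc1 : -(1 / 2) ≤ c1 ∧ c1 ≤ 1 / 2) (hc2 : -(1 / 2) ≤ c2 ∧ c2 ≤ 1 / 2)
    (hc3 : -(1 / 2) ≤ c3 ∧ c3 ≤ 1 / 2) (pA pB pC : ℝ)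
    (hA : pA = 1 - 1 / 2 * ((3 * a1 - b1 - c1 - d1) * a1 + (3 * a2 - b2 - c2 - d2) * a2 +
      (3 * a3 - b3 - c3 - d3) * a3))
    (hB : pB = 1 - 1 / 2 * ((3 * b1 - a1 - c1 - d1) * b1 + (3 * b2 - a2 - c2 - d2) * b2 +
      (3 * b3 - a3 - c3 - d3) * b3))
    (hC : pC = 1 - 1 / 2 * ((3 * c1 - a1 - b1 - d1) * c1 + (3 * c2 - a2 - b2 - d2) * c2 +
      (3 * c3 - a3 - b3 - d3) * c3))
    (cA1 : pA + 2 * (23 / 250) * s1 * ((3 * a1 - b1 - c1 - d1) / 4) ≤ 0)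
    (cA2 : pA + 2 * (23 / 250) * s2 * ((3 * a2 - b2 - c2 - d2) / 4) ≤ 0)
    (cB : pB - 2 * (23 / 250) * s1 * ((3 * b1 - a1 - c1 - d1) / 4) ≤ 0)
    (cC : pC - 2 * (23 / 250) * s2 * ((3 * c2 - a2 - b2 - d2) / 4) ≤ 0) : False := by
  have hD : 1 - pA - pB - pC = ((a1 + b1 + c1 - 3 * d1) / 4) * (2 * ((a1 + b1 + c1) / 3)) +
      ((a2 + b2 + c2 - 3 * d2) / 4) * (2 * ((a2 + b2 + c2) / 3)) +
      ((a3 + b3 + c3 - 3 * d3) / 4) * (2 * ((a3 + b3 + c3) / 3)) := by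
    rw [hA, hB, hC]; linear_combination (2 / 3) * AB + (2 / 3) * AC + (2 / 3) * BC
  have hcs2 := face_bound a1 a2 a3 b1 b2 b3 c1 c2 c3 d1 d2 d3 AB AC AD BC BD CD ha1 ha2 ha3
    hb1 hb2 hb3 hc1 hc2 hc3 _ hD
  have w1 : ((3 * a1 - b1 - c1 - d1) / 4 / 2 - (3 * b1 - a1 - c1 - d1) / 4) ^ 2 +
      ((3 * a2 - b2 - c2 - d2) / 4 / 2 - (3 * b2 - a2 - c2 - d2) / 4) ^ 2 +
      ((3 * a3 - b3 - c3 - d3) / 4 / 2 - (3 * b3 - a3 - c3 - d3) / 4) ^ 2 = 19 / 32 := by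
    linear_combination (35 / 64) * AB - (5 / 64) * AC - (5 / 64) * AD + (7 / 64) * BC +
      (7 / 64) * BD - (1 / 64) * CD
  have w2 : ((3 * a1 - b1 - c1 - d1) / 4 / 2 - (3 * c1 - a1 - b1 - d1) / 4) ^ 2 +
      ((3 * a2 - b2 - c2 - d2) / 4 / 2 - (3 * c2 - a2 - b2 - d2) / 4) ^ 2 +
      ((3 * a3 - b3 - c3 - d3) / 4 / 2 - (3 * c3 - a3 - b3 - d3) / 4) ^ 2 = 19 / 32 := by
    linear_combination (35 / 64) * AC - (5 / 64) * AB - (5 / 64) * AD + (7 / 64) * BC +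
      (7 / 64) * CD - (1 / 64) * BD
  have p1 := bd_7706 ((3 * a1 - b1 - c1 - d1) / 4 / 2 - (3 * b1 - a1 - c1 - d1) / 4) (by
    rw [← w1, add_assoc]; exact le_add_of_nonneg_right (by positivity))
  have p2 := bd_7706 ((3 * a2 - b2 - c2 - d2) / 4 / 2 - (3 * c2 - a2 - b2 - d2) / 4) (by
    rw [← w2, add_comm (_ ^ 2) (_ ^ 2), add_assoc]
    exact le_add_of_nonneg_right (by positivity))
  exact fin_aux _ (low_aux pA pB pC _ _ _ _ s1 s2 hs1 hs2 p1 p2 cA1 cA2 cB cC) hcs2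

/-- (beta2): opposite edges. -/
lemma beta2 (pA pB pC pD wa wb wc wd s1 s2 : ℝ) (hs1 : s1 = 1 ∨ s1 = -1)
    (hs2 : s2 = 1 ∨ s2 = -1) (hsum : pA + pB + pC + pD = 1)
    (h1 : (wa - wb) ^ 2 ≤ 1) (h2 : (wc - wd) ^ 2 ≤ 1)
    (cA : pA + 2 * (23 / 250) * s1 * wa ≤ 0) (cB : pB - 2 * (23 / 250) * s1 * wb ≤ 0)
    (cC : pC + 2 * (23 / 250) * s2 * wc ≤ 0) (cD : pD - 2 * (23 / 250) * s2 * wd ≤ 0) : False := by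
  have h1' := abs_le_of_sq_le_sq' (by simpa using h1 : (wa - wb) ^ 2 ≤ 1 ^ 2) zero_le_one
  have h2' := abs_le_of_sq_le_sq' (by simpa using h2 : (wc - wd) ^ 2 ≤ 1 ^ 2) zero_le_one
  rcases hs1 with rfl | rfl <;> rcases hs2 with rfl | rfl <;>
    linarith [h1'.1, h1'.2, h2'.1, h2'.2]

/-- The one-dimensional midpoint bound. -/
lemma mid_bound (a b : ℝ) (ha : -(1 / 2) ≤ a ∧ a ≤ 1 / 2) (hb : -(1 / 2) ≤ b ∧ b ≤ 1 / 2) :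
    ((a + b) / 2) ^ 2 ≤ ((1 - |a - b|) / 2) ^ 2 := by
  apply sq_le_sq'
  · rcases abs_cases (a - b) with h | h <;> linarith [ha.1, hb.1, h.1]
  · rcases abs_cases (a - b) with h | h <;> linarith [ha.2, hb.2, h.1]

lemma beta1_core (x y z : ℝ) (hx : 0 < x) (hxy : x ≤ y) (hz : 0 ≤ z)
    (h : x ^ 2 + y ^ 2 + z ^ 2 = 1) (h1 : (x + y + z - 1) / 2 ≤ 2 * (23 / 250) * x) : False := by
  have hx2 : x ^ 2 ≤ 1 / 2 := by nlinarith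
  have hy : 0 < y := by linarith
  have h3 : (1 - 3 / 5 * x ^ 2) ≤ y + z := by
    by_contra hcon
    push Not at hcon
    have h4 : (y + z) ^ 2 < (1 - 3 / 5 * x ^ 2) ^ 2 := by
      apply pow_lt_pow_left₀ hcon (by positivity) (by norm_num)
    nlinarith [mul_nonneg hy.le hz, sq_nonneg x]
  nlinarith

/-- (beta1), equality case. -/
lemma beta1_zero (u1 u2 u3 m1 m2 m3 e1 e2 e3 s pA pB : ℝ) (hs : s = 1 ∨ s = -1)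
    (hU : u1 ^ 2 + u2 ^ 2 + u3 ^ 2 = 1 / 2) (hD : e1 ^ 2 + e2 ^ 2 + e3 ^ 2 = 1)
    (hUD : u1 * e1 + u2 * e2 + u3 * e3 = 0)
    (hA : pA = 1 - ((u1 + e1) * (m1 + e1 / 2) + (u2 + e2) * (m2 + e2 / 2) +
      (u3 + e3) * (m3 + e3 / 2)))
    (hB : pB = 1 - ((u1 - e1) * (m1 - e1 / 2) + (u2 - e2) * (m2 - e2 / 2) +
      (u3 - e3) * (m3 - e3 / 2)))
    (he : e1 = 0) (h1 : m1 ^ 2 ≤ ((1 - |e1|) / 2) ^ 2) (h2 : m2 ^ 2 ≤ ((1 - |e2|) / 2) ^ 2)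
    (h3 : m3 ^ 2 ≤ ((1 - |e3|) / 2) ^ 2)
    (cA : pA + 2 * (23 / 250) * s * ((u1 + e1) / 2) ≤ 0)
    (cB : pB - 2 * (23 / 250) * s * ((u1 - e1) / 2) ≤ 0) : False := by
  subst he
  have e2' := sq_abs e2
  have e3' := sq_abs e3
  have p2 := abs_nonneg e2
  have p3 := abs_nonneg e3
  rw [abs_zero] at h1
  have hq : 1 ≤ |e2| + |e3| := by
    by_contra hcon
    push Not at hcon
    nlinarith [mul_nonneg p2 p3]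
  have hsum : pA + pB ≤ 0 := by
    rcases hs with rfl | rfl <;> linarith
  have hexp : pA + pB = (1 / 2 - m1 ^ 2 - m2 ^ 2 - m3 ^ 2) +
      ((u1 - m1) ^ 2 + (u2 - m2) ^ 2 + (u3 - m3) ^ 2) := by
    rw [hA, hB]; linear_combination (-1) * hU - hD
  have g1 := sq_nonneg (u1 - m1)
  have g2 := sq_nonneg (u2 - m2)
  have g3 := sq_nonneg (u3 - m3)
  have hm : m1 ^ 2 + m2 ^ 2 + m3 ^ 2 ≤ 1 / 4 + ((1 - |e2|) / 2) ^ 2 + ((1 - |e3|) / 2) ^ 2 := by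
    linarith
  have hm2 : 1 / 4 + ((1 - |e2|) / 2) ^ 2 + ((1 - |e3|) / 2) ^ 2 ≤ 1 / 2 := by nlinarith
  have k1 : (u1 - m1) ^ 2 = 0 := by linarith
  have k2 : (u2 - m2) ^ 2 = 0 := by linarith
  have k3 : (u3 - m3) ^ 2 = 0 := by linarith
  have j1 : m1 = u1 := by have := pow_eq_zero_iff (two_ne_zero) |>.1 k1; linarith
  have j2 : m2 = u2 := by have := pow_eq_zero_iff (two_ne_zero) |>.1 k2; linarith
  have j3 : m3 = u3 := by have := pow_eq_zero_iff (two_ne_zero) |>.1 k3; linarith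
  have hu1 : u1 ^ 2 = 1 / 4 := by rw [← j1]; nlinarith
  have hA0 : pA = 0 := by
    rw [hA, j1, j2, j3]; linear_combination (-1) * hU - (1 / 2) * hD - (3 / 2) * hUD
  have hB0 : pB = 0 := by
    rw [hB, j1, j2, j3]; linear_combination (-1) * hU - (1 / 2) * hD + (3 / 2) * hUD
  have : u1 = 0 := by
    rcases hs with rfl | rfl <;> linarith
  rw [this] at hu1; norm_num at hu1

/-- (beta1): the same edge for both axes. -/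
lemma beta1 (u1 u2 u3 m1 m2 m3 e1 e2 e3 s1 s2 pA pB : ℝ) (hs1 : s1 = 1 ∨ s1 = -1)
    (hs2 : s2 = 1 ∨ s2 = -1)
    (hU : u1 ^ 2 + u2 ^ 2 + u3 ^ 2 = 1 / 2) (hD : e1 ^ 2 + e2 ^ 2 + e3 ^ 2 = 1)
    (hUD : u1 * e1 + u2 * e2 + u3 * e3 = 0)
    (hA : pA = 1 - ((u1 + e1) * (m1 + e1 / 2) + (u2 + e2) * (m2 + e2 / 2) +
      (u3 + e3) * (m3 + e3 / 2)))
    (hB : pB = 1 - ((u1 - e1) * (m1 - e1 / 2) + (u2 - e2) * (m2 - e2 / 2) +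
      (u3 - e3) * (m3 - e3 / 2)))
    (h1 : m1 ^ 2 ≤ ((1 - |e1|) / 2) ^ 2) (h2 : m2 ^ 2 ≤ ((1 - |e2|) / 2) ^ 2)
    (h3 : m3 ^ 2 ≤ ((1 - |e3|) / 2) ^ 2)
    (cA : pA + 2 * (23 / 250) * s1 * ((u1 + e1) / 2) ≤ 0)
    (cB : pB - 2 * (23 / 250) * s1 * ((u1 - e1) / 2) ≤ 0)
    (dA : pA + 2 * (23 / 250) * s2 * ((u2 + e2) / 2) ≤ 0)
    (dB : pB - 2 * (23 / 250) * s2 * ((u2 - e2) / 2) ≤ 0) : False := by
  by_cases z1 : e1 = 0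
  · exact beta1_zero u1 u2 u3 m1 m2 m3 e1 e2 e3 s1 pA pB hs1 hU hD hUD hA hB z1 h1 h2 h3 cA cB
  by_cases z2 : e2 = 0
  · exact beta1_zero u2 u1 u3 m2 m1 m3 e2 e1 e3 s2 pA pB hs2 (by linarith) (by linarith)
      (by linarith) (by linarith) (by linarith) z2 h2 h1 h3 dA dB
  have e1' := sq_abs e1
  have e2' := sq_abs e2
  have e3' := sq_abs e3
  have hexp : pA + pB = (1 / 2 - m1 ^ 2 - m2 ^ 2 - m3 ^ 2) +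
      ((u1 - m1) ^ 2 + (u2 - m2) ^ 2 + (u3 - m3) ^ 2) := by
    rw [hA, hB]; linear_combination (-1) * hU - hD
  have g1 := sq_nonneg (u1 - m1)
  have g2 := sq_nonneg (u2 - m2)
  have g3 := sq_nonneg (u3 - m3)
  have hlow : (|e1| + |e2| + |e3| - 1) / 2 ≤ pA + pB := by nlinarith
  have hx : pA + pB ≤ 2 * (23 / 250) * |e1| := by
    rcases hs1 with rfl | rfl <;> linarith [le_abs_self e1, neg_abs_le e1]
  have hy : pA + pB ≤ 2 * (23 / 250) * |e2| := by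
    rcases hs2 with rfl | rfl <;> linarith [le_abs_self e2, neg_abs_le e2]
  have n1 := abs_pos.2 z1
  have n2 := abs_pos.2 z2
  have n3 := abs_nonneg e3
  rcases le_total |e1| |e2| with hle | hle
  · exact beta1_core |e1| |e2| |e3| n1 hle n3 (by rw [e1', e2', e3']; exact hD) (by linarith)
  · exact beta1_core |e2| |e1| |e3| n2 hle n3 (by rw [e1', e2', e3']; linarith) (by linarith)

end Pool.Agent.Helper14.TET
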