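import Mathlib

/-!
# Packing unit regular simplices in the unit cube: definitions
-/

open Set

namespace Pool.Agent.Helper14.TET

/-- The unit cube `[0,1]^n` in Euclidean `n`-space. -/
def unitCube (n : ℕ) : Set (EuclideanSpace ℝ (Fin n)) := {x | ∀ i, 0 ≤ x i ∧ x i ≤ 1}

/-- `S` is a regular `n`-simplex of edge `1` in Euclidean `n`-space: the convex hull of `n+1`
points whose pairwise distances all equal `1`. -/
def IsUnitRegularSimplex {n : ℕ} (S : Set (EuclideanSpace ℝ (Fin n))) : Prop :=
  ∃ v : Fin (n + 1) → EuclideanSpace ℝ (Fin n),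
    (∀ i j, i ≠ j → dist (v i) (v j) = 1) ∧ S = convexHull ℝ (range v)

/-- There is a packing of `k` regular `n`-simplices of edge `1` in the unit cube: each is contained
in the cube and their interiors are pairwise disjoint. The number `N(n)` of the problem is the
largest `k` with `Packable n k`. -/
def Packable (n k : ℕ) : Prop :=
  ∃ S : Fin k → Set (EuclideanSpace ℝ (Fin n)),
    (∀ i, IsUnitRegularSimplex (S i)) ∧ (∀ i, S i ⊆ unitCube n) ∧
      ∀ i j, i ≠ j → Disjoint (interior (S i)) (interior (S j))

end Pool.Agent.Helper14.TET
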