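import Pool.Agent.Helper14.TET.Upper
import Pool.Agent.Helper14.TET.Defs

/-!
# Every unit regular tetrahedron in the cube contains two of the six points; `N(3) <= 3`
-/

namespace Pool.Agent.Helper14.TET

open Finset

variable {X : Fin 4 → Fin 3 → ℝ}

lemma gram_self (hX : Good X) (j : Fin 4) : ∑ i, wv X j i * wv X j i = 3 / 8 := by
  obtain ⟨k, l, m, h1, h2, h3, h4, h5, h6⟩ := exists_three j
  have e1 := hX.d j k h1
  have e2 := hX.d j l h2
  have e3 := hX.d j m h3
  have e4 := hX.d k l h4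
  have e5 := hX.d k m h5
  have e6 := hX.d l m h6
  simp only [wv_eq X j k l m h1 h2 h3 h4 h5 h6, Fin.sum_univ_three] at e1 e2 e3 e4 e5 e6 ⊢
  linear_combination (3 / 16) * e1 + (3 / 16) * e2 + (3 / 16) * e3 - (1 / 16) * e4 -
      (1 / 16) * e5 - (1 / 16) * e6

lemma gram_ne (hX : Good X) (j k : Fin 4) (h : j ≠ k) : ∑ i, wv X j i * wv X k i = -1 / 8 := by
  have e1 := hX.d j k h
  have e2 := gram_self hX j
  have e3 := gram_self hX k
  have hs : ∀ i, X j i - X k i = wv X j i - wv X k i := by intro i; unfold wv; ring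
  simp only [hs, Fin.sum_univ_three] at e1 e2 e3 ⊢
  linear_combination (1 / 2) * e2 + (1 / 2) * e3 - (1 / 2) * e1

lemma tight (w : Fin 4 → Fin 3 → ℝ) :
    ∑ a, ∑ b, ((∑ j, w j a * w j b) - if a = b then 1 / 2 else 0) ^ 2 =
      ∑ j, ∑ k, (∑ i, w j i * w k i) ^ 2 - ∑ j, ∑ i, w j i * w j i + 3 / 4 := by
  simp only [Fin.sum_univ_four, Fin.sum_univ_three]
  simp (decide := true) only [if_true, if_false, sub_zero]
  ring

lemma frame (hX : Good X) (a b : Fin 3) :
    ∑ j, wv X j a * wv X j b = if a = b then 1 / 2 else 0 := by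
  have h := tight (wv X)
  have h1 : ∀ j k, (∑ i, wv X j i * wv X k i) = if j = k then 3 / 8 else -1 / 8 := by
    intro j k
    split_ifs with hjk
    · subst hjk; exact gram_self hX j
    · exact gram_ne hX j k hjk
  have h2 : ∑ a, ∑ b, ((∑ j, wv X j a * wv X j b) - if a = b then (1 / 2 : ℝ) else 0) ^ 2 = 0 := by
    rw [h]
    simp only [h1]
    simp only [Fin.sum_univ_four, Fin.sum_univ_three, gram_self hX]
    simp (decide := true) only [if_true, if_false]
    norm_num
  have h3 := (Finset.sum_eq_zero_iff_of_nonneg (fun a _ => Finset.sum_nonneg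
    (fun b _ => sq_nonneg ((∑ j, wv X j a * wv X j b) - if a = b then (1 / 2 : ℝ) else 0)))).1 h2
    a (Finset.mem_univ a)
  have h4 := (Finset.sum_eq_zero_iff_of_nonneg (fun b _ =>
    sq_nonneg ((∑ j, wv X j a * wv X j b) - if a = b then (1 / 2 : ℝ) else 0))).1 h3
    b (Finset.mem_univ b)
  have h5 := pow_eq_zero_iff (two_ne_zero) |>.1 h4
  linarith

/-- Barycentric coordinates. -/
noncomputable def lam (X : Fin 4 → Fin 3 → ℝ) (j : Fin 4) (P : Fin 3 → ℝ) : ℝ :=
  1 / 4 + 2 * ∑ i, wv X j i * (P i - cg X i)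

lemma sum_lam (X : Fin 4 → Fin 3 → ℝ) (P : Fin 3 → ℝ) : ∑ j, lam X j P = 1 := by
  have h0 := sum_wv X 0
  have h1 := sum_wv X 1
  have h2 := sum_wv X 2
  simp only [lam, Fin.sum_univ_four, Fin.sum_univ_three] at h0 h1 h2 ⊢
  linear_combination 2 * (P 0 - cg X 0) * h0 + 2 * (P 1 - cg X 1) * h1 + 2 * (P 2 - cg X 2) * h2

lemma sum_lam_wv (hX : Good X) (P : Fin 3 → ℝ) (i : Fin 3) :
    ∑ j, lam X j P * wv X j i = P i - cg X i := by
  have h0 := frame hX 0 i
  have h1 := frame hX 1 i
  have h2 := frame hX 2 i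
  have h3 := sum_wv X i
  have h4 : P i - cg X i = 2 * (P 0 - cg X 0) * (if (0 : Fin 3) = i then 1 / 2 else 0) +
      2 * (P 1 - cg X 1) * (if (1 : Fin 3) = i then 1 / 2 else 0) +
      2 * (P 2 - cg X 2) * (if (2 : Fin 3) = i then 1 / 2 else 0) := by
    fin_cases i <;> simp <;> ring
  rw [h4, ← h0, ← h1, ← h2]
  simp only [lam, Fin.sum_univ_four, Fin.sum_univ_three] at h3 ⊢
  linear_combination (1 / 4) * h3

lemma sum_lam_X (hX : Good X) (P : Fin 3 → ℝ) (i : Fin 3) :
    ∑ j, lam X j P * X j i = P i := by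
  have h1 := sum_lam_wv hX P i
  have h2 := sum_lam X P
  have hs : ∀ j, X j i = wv X j i + cg X i := by intro j; unfold wv; ring
  have : ∑ j, lam X j P * X j i = ∑ j, lam X j P * wv X j i + (∑ j, lam X j P) * cg X i := by
    rw [Finset.sum_mul, ← Finset.sum_add_distrib]
    apply Finset.sum_congr rfl
    intro j _
    rw [hs j]; ring
  rw [this, h1, h2]; ring

/-- Points of the cube whose barycentric coordinates are positive are interior. -/
lemma mem_interior_of_lam (v : Fin 4 → EuclideanSpace ℝ (Fin 3))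
    (hX : Good (fun j i => v j i - 1 / 2)) (x : EuclideanSpace ℝ (Fin 3))
    (hx : ∀ j, 0 < lam (fun j i => v j i - 1 / 2) j (fun i => x i - 1 / 2)) :
    x ∈ interior (convexHull ℝ (Set.range v)) := by
  rw [mem_interior]
  refine ⟨{y | ∀ j, 0 < lam (fun j i => v j i - 1 / 2) j (fun i => y i - 1 / 2)}, ?_, ?_, hx⟩
  · intro y hy
    have hy' : ∀ j, 0 < lam (fun j i => v j i - 1 / 2) j (fun i => y i - 1 / 2) := hy
    have hsum := sum_lam (fun j i => v j i - 1 / 2) (fun i => y i - 1 / 2)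
    have hw := (convex_convexHull ℝ (Set.range v)).sum_mem (t := Finset.univ)
      (w := fun j => lam (fun j i => v j i - 1 / 2) j (fun i => y i - 1 / 2)) (z := v)
      (fun j _ => (hy' j).le) hsum (fun j _ => subset_convexHull ℝ _ (Set.mem_range_self j))
    have hyy : y = ∑ j, lam (fun j i => v j i - 1 / 2) j (fun i => y i - 1 / 2) • v j := by
      ext i
      have h1 := sum_lam_X hX (fun i => y i - 1 / 2) i
      simp only [mul_sub, Finset.sum_sub_distrib] at h1
      rw [← Finset.sum_mul, hsum] at h1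
      have h2 : (∑ j, lam (fun j i => v j i - 1 / 2) j (fun i => y i - 1 / 2) • v j) i =
          ∑ j, lam (fun j i => v j i - 1 / 2) j (fun i => y i - 1 / 2) * v j i := by
        simp [Finset.sum_apply]
      rw [h2]
      linarith
    rw [hyy]; exact hw
  · have : {y : EuclideanSpace ℝ (Fin 3) |
        ∀ j, 0 < lam (fun j i => v j i - 1 / 2) j (fun i => y i - 1 / 2)} =
        ⋂ j, {y | 0 < lam (fun j i => v j i - 1 / 2) j (fun i => y i - 1 / 2)} := by
      ext y; simp
    rw [this]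
    apply isOpen_iInter_of_finite
    intro j
    apply isOpen_lt continuous_const
    unfold lam
    fun_prop

/-- The six points. -/
noncomputable def pt (z : Fin 3 × Bool) : EuclideanSpace ℝ (Fin 3) :=
  WithLp.toLp 2 (fun i => 1 / 2 + if i = z.1 then (if z.2 then (23 / 250) else -(23 / 250)) else 0)

lemma lam_pt (X : Fin 4 → Fin 3 → ℝ) (j : Fin 4) (z : Fin 3 × Bool) :
    lam X j (fun i => pt z i - 1 / 2) =
      be X j + 2 * (23 / 250) * (if z.2 then 1 else -1) * wv X j z.1 := by
  obtain ⟨i, s⟩ := z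
  unfold lam be pt
  simp only [Fin.sum_univ_three]
  fin_cases i <;> cases s <;> simp <;> ring

lemma good_of (v : Fin 4 → EuclideanSpace ℝ (Fin 3))
    (hv : ∀ i j, i ≠ j → dist (v i) (v j) = 1) (hc : ∀ j, v j ∈ unitCube 3) :
    Good (fun j i => v j i - 1 / 2) := by
  constructor
  · intro j k hjk
    have h := hv j k hjk
    rw [EuclideanSpace.dist_eq, Real.sqrt_eq_one] at h
    rw [← h]
    apply Finset.sum_congr rfl
    intro i _
    rw [Real.dist_eq, sq_abs]
    ring
  · intro j i
    have := hc j i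
    constructor <;> linarith [this.1, this.2]

/-- For two different axes, one of the four points is an interior point. -/
lemma hit (v : Fin 4 → EuclideanSpace ℝ (Fin 3))
    (hv : ∀ i j, i ≠ j → dist (v i) (v j) = 1) (hc : ∀ j, v j ∈ unitCube 3) (p q : Fin 3)
    (hpq : p ≠ q) : ∃ z : Fin 3 × Bool, (z.1 = p ∨ z.1 = q) ∧
      pt z ∈ interior (convexHull ℝ (Set.range v)) := by
  have hX := good_of v hv hc
  by_contra hcon
  push Not at hcon
  have key : ∀ z : Fin 3 × Bool, (z.1 = p ∨ z.1 = q) →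
      ∃ j, Cut (fun j i => v j i - 1 / 2) j z.1 (if z.2 then 1 else -1) := by
    intro z hz
    by_contra h2
    push Not at h2
    apply hcon z hz
    apply mem_interior_of_lam v hX
    intro j
    rw [lam_pt]
    have := h2 j
    unfold Cut at this
    exact not_le.1 this
  have k1 := key (p, true) (Or.inl rfl)
  have k2 := key (p, false) (Or.inl rfl)
  have k3 := key (q, true) (Or.inr rfl)
  have k4 := key (q, false) (Or.inr rfl)
  simp only [if_true, Bool.false_eq_true, if_false] at k1 k2 k3 k4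
  exact claimC hX p q hpq k1 k2 k3 k4

/-- Two of the six points are interior points. -/
lemma two_hits (v : Fin 4 → EuclideanSpace ℝ (Fin 3))
    (hv : ∀ i j, i ≠ j → dist (v i) (v j) = 1) (hc : ∀ j, v j ∈ unitCube 3) :
    ∃ z z' : Fin 3 × Bool, z ≠ z' ∧ pt z ∈ interior (convexHull ℝ (Set.range v)) ∧
      pt z' ∈ interior (convexHull ℝ (Set.range v)) := by
  obtain ⟨z, _, hz⟩ := hit v hv hc 0 1 (by decide)
  obtain ⟨q, r, g1, g2, g3⟩ := exists_two z.1
  obtain ⟨z', hz1, hz'⟩ := hit v hv hc q r g3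
  refine ⟨z, z', ?_, hz, hz'⟩
  rintro rfl
  rcases hz1 with h | h
  · exact g1 h
  · exact g2 h

theorem packable_three_le (k : ℕ) (h : Packable 3 k) : k ≤ 3 := by
  classical
  by_contra hk
  push Not at hk
  obtain ⟨S, hS, hsub, hdis⟩ := h
  let F : Fin 4 → Finset (Fin 3 × Bool) := fun q =>
    Finset.univ.filter (fun z => pt z ∈ interior (S ⟨q.1, by omega⟩))
  have hcard : ∀ q, 2 ≤ (F q).card := by
    intro q
    obtain ⟨v, hv, hSv⟩ := hS ⟨q.1, by omega⟩
    have hc : ∀ j, v j ∈ unitCube 3 := fun j => by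
      apply hsub ⟨q.1, by omega⟩
      rw [hSv]
      exact subset_convexHull ℝ _ (Set.mem_range_self j)
    obtain ⟨z, z', hne, h1, h2⟩ := two_hits v hv hc
    apply Finset.one_lt_card.2
    refine ⟨z, ?_, z', ?_, hne⟩
    · simp only [F, Finset.mem_filter, Finset.mem_univ, true_and]
      rw [hSv]; exact h1
    · simp only [F, Finset.mem_filter, Finset.mem_univ, true_and]
      rw [hSv]; exact h2
  have hdisj : ∀ x ∈ (Finset.univ : Finset (Fin 4)), ∀ y ∈ (Finset.univ : Finset (Fin 4)),
      x ≠ y → Disjoint (F x) (F y) := by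
    intro x _ y _ hxy
    rw [Finset.disjoint_left]
    intro z hz1 hz2
    simp only [F, Finset.mem_filter, Finset.mem_univ, true_and] at hz1 hz2
    have hne : (⟨x.1, by omega⟩ : Fin k) ≠ ⟨y.1, by omega⟩ := by
      intro h
      apply hxy
      apply Fin.ext
      exact Fin.mk.inj_iff.1 h
    exact Set.disjoint_left.1 (hdis _ _ hne) hz1 hz2
  have h1 := Finset.card_biUnion hdisj
  have h2 : (Finset.univ.biUnion F).card ≤ 6 := by
    calc (Finset.univ.biUnion F).card ≤ (Finset.univ : Finset (Fin 3 × Bool)).card :=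
          Finset.card_le_univ _
      _ = 6 := by simp
  have h3 : 8 ≤ ∑ q, (F q).card := by
    calc 8 = ∑ _q : Fin 4, 2 := by simp
      _ ≤ ∑ q, (F q).card := Finset.sum_le_sum (fun q _ => hcard q)
  omega

end Pool.Agent.Helper14.TET
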