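import Pool.Agent.Helper14.TET.Defs

/-!
# Three regular tetrahedra of edge `1` in the unit cube
-/

open Set

namespace Pool.Agent.Helper14.TET

/-- Euclidean 3-space. -/
abbrev E3 := EuclideanSpace ℝ (Fin 3)

/-- A linear functional. -/
noncomputable def lf (a b c : ℝ) (x : E3) : ℝ := a * x 0 + b * x 1 + c * x 2

lemma sep (a b c t : ℝ) (h : 0 < a ^ 2 + b ^ 2 + c ^ 2) (S S' : Set E3)
    (h1 : ∀ x ∈ S, t ≤ lf a b c x) (h2 : ∀ x ∈ S', lf a b c x ≤ t) :
    Disjoint (interior S) (interior S') := by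
  rw [Set.disjoint_left]
  intro x hx hx'
  have hx2 := h2 x (interior_subset hx')
  let n : E3 := WithLp.toLp 2 ![a, b, c]
  have hcont : Continuous (fun r : ℝ => x - r • n) := by fun_prop
  have hopen : IsOpen ((fun r : ℝ => x - r • n) ⁻¹' interior S) := isOpen_interior.preimage hcont
  have h0 : (0 : ℝ) ∈ (fun r : ℝ => x - r • n) ⁻¹' interior S := by simpa using hx
  obtain ⟨ε, hε, hball⟩ := Metric.isOpen_iff.1 hopen 0 h0
  have hmem : (ε / 2) ∈ Metric.ball (0 : ℝ) ε := by
    rw [Metric.mem_ball, Real.dist_eq, sub_zero, abs_of_pos (by linarith)]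
    linarith
  have h3 := h1 _ (interior_subset (hball hmem))
  have h4 : lf a b c (x - (ε / 2) • n) = lf a b c x - (ε / 2) * (a ^ 2 + b ^ 2 + c ^ 2) := by
    simp [lf, n]; ring
  rw [h4] at h3
  have : 0 < (ε / 2) * (a ^ 2 + b ^ 2 + c ^ 2) := by positivity
  linarith

lemma hull_ge (a b c t : ℝ) (v : Fin 4 → E3) (h : ∀ j, t ≤ lf a b c (v j)) :
    ∀ x ∈ convexHull ℝ (range v), t ≤ lf a b c x := by
  have hc : Convex ℝ {x : E3 | t ≤ lf a b c x} := by
    intro x hx y hy p q hp hq hpq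
    have hx' : t ≤ lf a b c x := hx
    have hy' : t ≤ lf a b c y := hy
    show t ≤ lf a b c (p • x + q • y)
    have : lf a b c (p • x + q • y) = p * lf a b c x + q * lf a b c y := by
      simp [lf]; ring
    rw [this]
    have ht : t = p * t + q * t := by rw [← add_mul, hpq, one_mul]
    have g1 := mul_le_mul_of_nonneg_left hx' hp
    have g2 := mul_le_mul_of_nonneg_left hy' hq
    linarith
  intro x hx
  exact convexHull_min (by rintro _ ⟨j, rfl⟩; exact h j) hc hx

lemma hull_le (a b c t : ℝ) (v : Fin 4 → E3) (h : ∀ j, lf a b c (v j) ≤ t) :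
    ∀ x ∈ convexHull ℝ (range v), lf a b c x ≤ t := by
  have hneg : ∀ x, lf (-a) (-b) (-c) x = - lf a b c x := by intro x; unfold lf; ring
  intro x hx
  have := hull_ge (-a) (-b) (-c) (-t) v (fun j => by rw [hneg]; linarith [h j]) x hx
  rw [hneg] at this
  linarith

lemma convex_cube : Convex ℝ (unitCube 3) := by
  intro x hx y hy a b ha hb hab i
  have h1 := hx i
  have h2 := hy i
  simp only [PiLp.add_apply, PiLp.smul_apply, smul_eq_mul]
  constructor
  · nlinarith
  · nlinarith

/-- The three tetrahedra. -/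
noncomputable def tet (c : ℝ) : Fin 3 → Fin 4 → E3 :=
  ![![WithLp.toLp 2 ![1, 0, 1], WithLp.toLp 2 ![1, 1, 1],
      WithLp.toLp 2 ![1 / 2 + c, 1 / 2, 1 / 2 - c], WithLp.toLp 2 ![1 / 2 - c, 1 / 2, 1 / 2 + c]],
    ![WithLp.toLp 2 ![0, 1, 0], WithLp.toLp 2 ![1, 1, 0],
      WithLp.toLp 2 ![1 / 2, 1 / 2 - c, 1 / 2 - c], WithLp.toLp 2 ![1 / 2, 1 / 2 + c, 1 / 2 + c]],
    ![WithLp.toLp 2 ![0, 0, 1], WithLp.toLp 2 ![0, 0, 0],
      WithLp.toLp 2 ![1 / 2 + c, 1 / 2 - c, 1 / 2], WithLp.toLp 2 ![1 / 2 - c, 1 / 2 + c, 1 / 2]]]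

lemma dist_of_sq (x y : E3) (h : (x 0 - y 0) ^ 2 + (x 1 - y 1) ^ 2 + (x 2 - y 2) ^ 2 = 1) :
    dist x y = 1 := by
  rw [EuclideanSpace.dist_eq, Real.sqrt_eq_one]
  simpa [Fin.sum_univ_three, Real.dist_eq, sq_abs] using h

lemma tet_dist (c : ℝ) (hc : c ^ 2 = 1 / 8) (q : Fin 3) (i j : Fin 4) (hij : i ≠ j) :
    dist (tet c q i) (tet c q j) = 1 := by
  apply dist_of_sq
  fin_cases q <;> fin_cases i <;> fin_cases j <;>
    first
    | exact absurd rfl hij
    | (simp [tet] <;> linear_combination (0 : ℝ) * hc)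
    | (simp [tet] <;> linear_combination 2 * hc)
    | (simp [tet] <;> linear_combination 8 * hc)

lemma tet_cube (c : ℝ) (hc0 : 0 ≤ c) (hc1 : c ≤ 1 / 2) (q : Fin 3) (i : Fin 4) :
    tet c q i ∈ unitCube 3 := by
  intro r
  fin_cases q <;> fin_cases i <;> fin_cases r <;> simp [tet] <;>
    (try constructor) <;> linarith

theorem packable_three : Packable 3 3 := by
  have hpos : (0 : ℝ) ≤ Real.sqrt 2 := Real.sqrt_nonneg 2
  have hsq : Real.sqrt 2 ^ 2 = 2 := Real.sq_sqrt (by norm_num)
  have hc : (Real.sqrt 2 / 4) ^ 2 = 1 / 8 := by rw [div_pow, hsq]; norm_num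
  have hc0 : 0 ≤ Real.sqrt 2 / 4 := by positivity
  have hc1 : Real.sqrt 2 / 4 ≤ 1 / 2 := by
    have : Real.sqrt 2 ≤ 2 := by nlinarith
    linarith
  generalize Real.sqrt 2 / 4 = c at hc hc0 hc1
  have d01 : Disjoint (interior (convexHull ℝ (range (tet c 0))))
      (interior (convexHull ℝ (range (tet c 1)))) := by
    apply sep 1 (-1) 1 (1 / 2) (by norm_num)
    · apply hull_ge
      intro j
      fin_cases j <;> simp [lf, tet] <;> linarith
    · apply hull_le
      intro j
      fin_cases j <;> simp [lf, tet] <;> linarith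
  have d02 : Disjoint (interior (convexHull ℝ (range (tet c 0))))
      (interior (convexHull ℝ (range (tet c 2)))) := by
    apply sep 1 1 1 (3 / 2) (by norm_num)
    · apply hull_ge
      intro j
      fin_cases j <;> simp [lf, tet] <;> linarith
    · apply hull_le
      intro j
      fin_cases j <;> simp [lf, tet] <;> linarith
  have d12 : Disjoint (interior (convexHull ℝ (range (tet c 1))))
      (interior (convexHull ℝ (range (tet c 2)))) := by
    apply sep 1 1 (-1) (1 / 2) (by norm_num)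
    · apply hull_ge
      intro j
      fin_cases j <;> simp [lf, tet] <;> linarith
    · apply hull_le
      intro j
      fin_cases j <;> simp [lf, tet] <;> linarith
  refine ⟨fun q => convexHull ℝ (range (tet c q)), fun q => ⟨tet c q, fun i j hij =>
    tet_dist c hc q i j hij, rfl⟩, fun q => ?_, fun i j hij => ?_⟩
  · apply convexHull_min _ convex_cube
    rintro _ ⟨i, rfl⟩
    exact tet_cube c hc0 hc1 q i
  · fin_cases i <;> fin_cases j
    · exact absurd rfl hij
    · exact d01
    · exact d02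
    · exact d01.symm
    · exact absurd rfl hij
    · exact d12
    · exact d02.symm
    · exact d12.symm
    · exact absurd rfl hij

end Pool.Agent.Helper14.TET
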