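import Pool.Agent.Helper14.TET.Defs

/-!
# Packing unit equilateral triangles in the unit square: the maximum is `1`
-/

open Set

namespace Pool.Agent.Helper14.TET.Plane

/-- The centre of the square. -/
noncomputable def ctr : EuclideanSpace ℝ (Fin 2) := WithLp.toLp 2 (fun _ => 1 / 2)

/-- Barycentric coordinate (of the vertex `Q`) in the equilateral triangle `P Q R`. -/
noncomputable def bary (P Q R x : EuclideanSpace ℝ (Fin 2)) : ℝ :=
  4 / 3 * (((Q 0 - P 0) - (R 0 - P 0) / 2) * (x 0 - P 0) + ((Q 1 - P 1) - (R 1 - P 1) / 2) * (x 1 - P 1))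

lemma dist_one (P Q : EuclideanSpace ℝ (Fin 2)) (h : dist P Q = 1) :
    (P 0 - Q 0) ^ 2 + (P 1 - Q 1) ^ 2 = 1 := by
  rw [EuclideanSpace.dist_eq, Real.sqrt_eq_one] at h
  simpa [Fin.sum_univ_two, Real.dist_eq, sq_abs] using h

lemma aux1 (q : ℝ) (h : 0 ≤ q ∧ q ≤ 1) : (q - 1 / 2) ^ 2 ≤ 1 / 4 := by
  nlinarith [mul_nonneg h.1 (sub_nonneg.2 h.2)]

lemma aux2 (a b c d : ℝ) : (a * b + c * d) ^ 2 ≤ (a ^ 2 + c ^ 2) * (b ^ 2 + d ^ 2) := by
  nlinarith [sq_nonneg (a * d - c * b)]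

lemma aux3 (t s : ℝ) (h : 3 / 4 ≤ t) (h2 : t ^ 2 ≤ 3 / 4 * s) (hs : s ≤ 1 / 2) : False := by
  nlinarith

lemma bary_ctr_pos (P Q R : EuclideanSpace ℝ (Fin 2)) (h1 : dist P Q = 1) (h2 : dist Q R = 1)
    (h3 : dist P R = 1) (hQ : Q ∈ unitCube 2) : 0 < bary P Q R ctr := by
  have e1 := dist_one P Q h1
  have e2 := dist_one Q R h2
  have e3 := dist_one P R h3
  have q0 := hQ 0
  have q1 := hQ 1
  by_contra hcon
  push Not at hcon
  simp only [bary, ctr] at hcon
  set n0 := (Q 0 - P 0) - (R 0 - P 0) / 2 with hn0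
  set n1 := (Q 1 - P 1) - (R 1 - P 1) / 2 with hn1
  have hn : n0 ^ 2 + n1 ^ 2 = 3 / 4 := by
    rw [hn0, hn1]; linear_combination (1 / 2) * e1 + (1 / 2) * e2 - (1 / 4) * e3
  have hd : n0 * (Q 0 - P 0) + n1 * (Q 1 - P 1) = 3 / 4 := by
    rw [hn0, hn1]; linear_combination (3 / 4) * e1 + (1 / 4) * e2 - (1 / 4) * e3
  have h5 : 3 / 4 ≤ n0 * (Q 0 - 1 / 2) + n1 * (Q 1 - 1 / 2) := by
    have : n0 * (1 / 2 - P 0) + n1 * (1 / 2 - P 1) ≤ 0 := by linarith
    linarith
  have d0 := aux1 (Q 0) q0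
  have d1 := aux1 (Q 1) q1
  have cs := aux2 n0 (Q 0 - 1 / 2) n1 (Q 1 - 1 / 2)
  rw [hn] at cs
  exact aux3 _ _ h5 cs (by linarith)

lemma bary_sum (P Q R x : EuclideanSpace ℝ (Fin 2)) (h1 : dist P Q = 1) (h2 : dist Q R = 1)
    (h3 : dist P R = 1) (i : Fin 2) :
    (1 - bary P Q R x - bary P R Q x) * P i + bary P Q R x * Q i + bary P R Q x * R i = x i := by
  have e1 := dist_one P Q h1
  have e2 := dist_one Q R h2
  have e3 := dist_one P R h3
  set a := Q 0 - P 0 with ha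
  set b := Q 1 - P 1 with hb
  set c := R 0 - P 0 with hc
  set d := R 1 - P 1 with hd
  have f1 : a ^ 2 + b ^ 2 = 1 := by rw [ha, hb]; linarith [e1]
  have f3 : c ^ 2 + d ^ 2 = 1 := by rw [hc, hd]; linarith [e3]
  have f2 : a * c + b * d = 1 / 2 := by
    rw [ha, hb, hc, hd]; linear_combination (1 / 2) * e1 + (1 / 2) * e3 - (1 / 2) * e2
  have hDD : (a * d - b * c) ^ 2 = 3 / 4 := by
    have : (a * d - b * c) ^ 2 = (a ^ 2 + b ^ 2) * (c ^ 2 + d ^ 2) - (a * c + b * d) ^ 2 := by ring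
    rw [this, f1, f3, f2]; norm_num
  have hD : a * d - b * c ≠ 0 := by
    intro h; rw [h] at hDD; norm_num at hDD
  have g1 : a * (a * d - b * c) = d - b / 2 := by linear_combination d * f1 - b * f2
  have g2 : c * (a * d - b * c) = d / 2 - b := by linear_combination d * f2 - b * f3
  have g3 : b * (a * d - b * c) = a / 2 - c := by linear_combination a * f2 - c * f1
  have g4 : d * (a * d - b * c) = a - c / 2 := by linear_combination a * f3 - c * f2
  have s1 : bary P Q R x * (a * d - b * c) = (x 0 - P 0) * d - (x 1 - P 1) * c := by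
    unfold bary
    rw [← ha, ← hb, ← hc, ← hd]
    linear_combination (4 / 3) * (x 0 - P 0) * g1 - (2 / 3) * (x 0 - P 0) * g2 +
      (4 / 3) * (x 1 - P 1) * g3 - (2 / 3) * (x 1 - P 1) * g4
  have s2 : bary P R Q x * (a * d - b * c) = (x 1 - P 1) * a - (x 0 - P 0) * b := by
    unfold bary
    rw [← ha, ← hb, ← hc, ← hd]
    linear_combination (4 / 3) * (x 0 - P 0) * g2 - (2 / 3) * (x 0 - P 0) * g1 +
      (4 / 3) * (x 1 - P 1) * g4 - (2 / 3) * (x 1 - P 1) * g3
  apply mul_right_cancel₀ hD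
  have hQ0 : Q 0 = P 0 + a := by rw [ha]; ring
  have hQ1 : Q 1 = P 1 + b := by rw [hb]; ring
  have hR0 : R 0 = P 0 + c := by rw [hc]; ring
  have hR1 : R 1 = P 1 + d := by rw [hd]; ring
  fin_cases i
  · show ((1 - bary P Q R x - bary P R Q x) * P 0 + bary P Q R x * Q 0 + bary P R Q x * R 0) *
      (a * d - b * c) = x 0 * (a * d - b * c)
    rw [hQ0, hR0]
    linear_combination a * s1 + c * s2
  · show ((1 - bary P Q R x - bary P R Q x) * P 1 + bary P Q R x * Q 1 + bary P R Q x * R 1) *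
      (a * d - b * c) = x 1 * (a * d - b * c)
    rw [hQ1, hR1]
    linear_combination b * s1 + d * s2

lemma bary_third (P Q R x : EuclideanSpace ℝ (Fin 2)) (h1 : dist P Q = 1) (h2 : dist Q R = 1)
    (h3 : dist P R = 1) : 1 - bary P Q R x - bary P R Q x = bary Q P R x := by
  have e1 := dist_one P Q h1
  have e2 := dist_one Q R h2
  have e3 := dist_one P R h3
  unfold bary
  linear_combination (-1) * e1 + (1/3) * e2 - (1/3) * e3

lemma ctr_mem_interior (v : Fin 3 → EuclideanSpace ℝ (Fin 2))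
    (hv : ∀ i j, i ≠ j → dist (v i) (v j) = 1) (hsub : convexHull ℝ (range v) ⊆ unitCube 2) :
    ctr ∈ interior (convexHull ℝ (range v)) := by
  have h01 := hv 0 1 (by decide)
  have h12 := hv 1 2 (by decide)
  have h02 := hv 0 2 (by decide)
  have hm : ∀ i, v i ∈ unitCube 2 := fun i => hsub (subset_convexHull ℝ _ (mem_range_self i))
  have hcont : ∀ P Q R : EuclideanSpace ℝ (Fin 2), Continuous (bary P Q R) := by
    intro P Q R
    unfold bary
    fun_prop
  rw [mem_interior]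
  refine ⟨{x | 0 < bary (v 0) (v 1) (v 2) x} ∩ {x | 0 < bary (v 0) (v 2) (v 1) x} ∩
    {x | 0 < bary (v 1) (v 0) (v 2) x}, ?_, ?_, ?_⟩
  · rintro x ⟨⟨hx1, hx2⟩, hx3⟩
    have hx1' : 0 < bary (v 0) (v 1) (v 2) x := hx1
    have hx2' : 0 < bary (v 0) (v 2) (v 1) x := hx2
    have hx3' : 0 < bary (v 1) (v 0) (v 2) x := hx3
    rw [← bary_third (v 0) (v 1) (v 2) x h01 h12 h02] at hx3'
    have hx : x = (1 - bary (v 0) (v 1) (v 2) x - bary (v 0) (v 2) (v 1) x) • v 0 +
        bary (v 0) (v 1) (v 2) x • v 1 + bary (v 0) (v 2) (v 1) x • v 2 := by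
      ext i
      have := bary_sum (v 0) (v 1) (v 2) x h01 h12 h02 i
      simp only [PiLp.add_apply, PiLp.smul_apply, smul_eq_mul]
      exact this.symm
    have hconv := convex_convexHull ℝ (range v)
    have hw := hconv.sum_mem (t := Finset.univ) (w := ![1 - bary (v 0) (v 1) (v 2) x -
      bary (v 0) (v 2) (v 1) x, bary (v 0) (v 1) (v 2) x, bary (v 0) (v 2) (v 1) x]) (z := v)
      (by intro i _; fin_cases i <;> simp <;> linarith)
      (by simp [Fin.sum_univ_three]; ring) (fun i _ => subset_convexHull ℝ _ (mem_range_self i))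
    rw [hx]
    simpa [Fin.sum_univ_three] using hw
  · exact ((isOpen_lt continuous_const (hcont _ _ _)).inter
      (isOpen_lt continuous_const (hcont _ _ _))).inter (isOpen_lt continuous_const (hcont _ _ _))
  · refine ⟨⟨?_, ?_⟩, ?_⟩
    · exact bary_ctr_pos _ _ _ h01 h12 h02 (hm 1)
    · exact bary_ctr_pos _ _ _ h02 (by rw [dist_comm]; exact h12) h01 (hm 2)
    · exact bary_ctr_pos _ _ _ (by rw [dist_comm]; exact h01) h02 h12 (hm 0)

lemma packable_two_le (k : ℕ) (h : Packable 2 k) : k ≤ 1 := by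
  by_contra hk
  push Not at hk
  obtain ⟨S, hS, hsub, hdis⟩ := h
  have key : ∀ i, ctr ∈ interior (S i) := by
    intro i
    obtain ⟨v, hv, hSv⟩ := hS i
    have := hsub i
    rw [hSv] at this ⊢
    exact ctr_mem_interior v hv this
  have := hdis ⟨0, by omega⟩ ⟨1, by omega⟩ (by simp)
  exact Set.disjoint_left.1 this (key _) (key _)

/-- One equilateral triangle of edge `1` in the unit square. -/
lemma packable_two_one : Packable 2 1 := by
  -- vertices (0,0), (1,0), (1/2, √3/2)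
  let v : Fin 3 → EuclideanSpace ℝ (Fin 2) :=
    ![WithLp.toLp 2 ![0, 0], WithLp.toLp 2 ![1, 0], WithLp.toLp 2 ![1 / 2, Real.sqrt 3 / 2]]
  have h3 : Real.sqrt 3 * Real.sqrt 3 = 3 := Real.mul_self_sqrt (by norm_num)
  have h3' : Real.sqrt 3 ≤ 2 := by
    rw [show (2 : ℝ) = Real.sqrt 4 by rw [show (4 : ℝ) = 2 ^ 2 by norm_num, Real.sqrt_sq (by norm_num)]]
    exact Real.sqrt_le_sqrt (by norm_num)
  have hd : ∀ i j, i ≠ j → dist (v i) (v j) = 1 := by
    have q : ∀ x y : EuclideanSpace ℝ (Fin 2), (x 0 - y 0) ^ 2 + (x 1 - y 1) ^ 2 = 1 → dist x y = 1 := by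
      intro x y h
      rw [EuclideanSpace.dist_eq, Real.sqrt_eq_one]
      simpa [Fin.sum_univ_two, Real.dist_eq, sq_abs] using h
    intro i j hij
    apply q
    fin_cases i <;> fin_cases j <;> simp [v] at hij ⊢ <;> nlinarith
  have hc : Convex ℝ (unitCube 2) := by
    intro x hx y hy a b ha hb hab i
    have h1 := hx i
    have h2 := hy i
    simp only [PiLp.add_apply, PiLp.smul_apply, smul_eq_mul]
    constructor
    · nlinarith
    · nlinarith
  refine ⟨fun _ => convexHull ℝ (range v), fun _ => ⟨v, hd, rfl⟩, fun _ => ?_, fun i j hij => ?_⟩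
  · apply convexHull_min _ hc
    rintro _ ⟨a, rfl⟩ i
    have h0 := Real.sqrt_nonneg 3
    fin_cases a <;> fin_cases i <;> simp [v] <;> norm_num <;> (try constructor) <;> linarith
  · exact absurd (Subsingleton.elim i j) hij

/-- **Main theorem.** `N(2) = 1`. -/
theorem planeOne : Packable 2 1 ∧ ∀ k : ℕ, Packable 2 k → k ≤ 1 :=
  ⟨packable_two_one, packable_two_le⟩

end Pool.Agent.Helper14.TET.Plane
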