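import Pool.Agent.Helper14.TET.Alg2

/-!
# For two axes at least one of the four points is inside
-/

namespace Pool.Agent.Helper14.TET

open Finset

lemma sum4 (f : Fin 4 → ℝ) (j k l m : Fin 4) (h1 : j ≠ k) (h2 : j ≠ l) (h3 : j ≠ m) (h4 : k ≠ l)
    (h5 : k ≠ m) (h6 : l ≠ m) : ∑ n, f n = f j + f k + f l + f m := by
  have hu : (Finset.univ : Finset (Fin 4)) = {j, k, l, m} := by
    symm
    apply Finset.eq_univ_of_card
    rw [Finset.card_insert_of_notMem (by simp [h1, h2, h3]),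
      Finset.card_insert_of_notMem (by simp [h4, h5]), Finset.card_insert_of_notMem (by simp [h6])]
    simp
  rw [hu, Finset.sum_insert (by simp [h1, h2, h3]), Finset.sum_insert (by simp [h4, h5]),
    Finset.sum_insert (by simp [h6]), Finset.sum_singleton]
  ring

lemma sum3 (f : Fin 3 → ℝ) (p q r : Fin 3) (h1 : p ≠ q) (h2 : p ≠ r) (h3 : q ≠ r) :
    ∑ n, f n = f p + f q + f r := by
  have hu : (Finset.univ : Finset (Fin 3)) = {p, q, r} := by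
    symm
    apply Finset.eq_univ_of_card
    rw [Finset.card_insert_of_notMem (by simp [h1, h2]),
      Finset.card_insert_of_notMem (by simp [h3])]
    simp
  rw [hu, Finset.sum_insert (by simp [h1, h2]), Finset.sum_insert (by simp [h3]),
    Finset.sum_singleton]
  ring

/-- The centroid. -/
noncomputable def cg (X : Fin 4 → Fin 3 → ℝ) (i : Fin 3) : ℝ := (∑ j, X j i) / 4

/-- The vertex vectors from the centroid. -/
noncomputable def wv (X : Fin 4 → Fin 3 → ℝ) (j : Fin 4) (i : Fin 3) : ℝ := X j i - cg X i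

/-- The barycentric coordinates of the origin. -/
noncomputable def be (X : Fin 4 → Fin 3 → ℝ) (j : Fin 4) : ℝ := 1 / 4 - 2 * ∑ i, wv X j i * cg X i

/-- Regular tetrahedron of edge 1 in the cube. -/
structure Good (X : Fin 4 → Fin 3 → ℝ) : Prop where
  d : ∀ j k, j ≠ k → ∑ i, (X j i - X k i) ^ 2 = 1
  b : ∀ j i, -(1 / 2) ≤ X j i ∧ X j i ≤ 1 / 2

/-- The face `j` cuts the point `s a e_i`. -/
def Cut (X : Fin 4 → Fin 3 → ℝ) (j : Fin 4) (i : Fin 3) (s : ℝ) : Prop :=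
  be X j + 2 * (23 / 250) * s * wv X j i ≤ 0

variable {X : Fin 4 → Fin 3 → ℝ}

lemma wv_eq (X : Fin 4 → Fin 3 → ℝ) (j k l m : Fin 4) (h1 : j ≠ k) (h2 : j ≠ l) (h3 : j ≠ m)
    (h4 : k ≠ l) (h5 : k ≠ m) (h6 : l ≠ m) (i : Fin 3) :
    wv X j i = (3 * X j i - X k i - X l i - X m i) / 4 := by
  unfold wv cg
  rw [sum4 (fun j => X j i) j k l m h1 h2 h3 h4 h5 h6]
  ring

lemma be_eq (hX : Good X) (j k l m : Fin 4) (h1 : j ≠ k) (h2 : j ≠ l) (h3 : j ≠ m)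
    (h4 : k ≠ l) (h5 : k ≠ m) (h6 : l ≠ m) (p q r : Fin 3) (g1 : p ≠ q) (g2 : p ≠ r)
    (g3 : q ≠ r) :
    be X j = 1 - 1 / 2 * ((3 * X j p - X k p - X l p - X m p) * X j p +
      (3 * X j q - X k q - X l q - X m q) * X j q +
      (3 * X j r - X k r - X l r - X m r) * X j r) := by
  have e1 := hX.d j k h1
  have e2 := hX.d j l h2
  have e3 := hX.d j m h3
  have e4 := hX.d k l h4
  have e5 := hX.d k m h5
  have e6 := hX.d l m h6
  rw [sum3 _ p q r g1 g2 g3] at e1 e2 e3 e4 e5 e6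
  unfold be
  rw [sum3 _ p q r g1 g2 g3, wv_eq X j k l m h1 h2 h3 h4 h5 h6, wv_eq X j k l m h1 h2 h3 h4 h5 h6,
    wv_eq X j k l m h1 h2 h3 h4 h5 h6]
  unfold cg
  rw [sum4 (fun j => X j p) j k l m h1 h2 h3 h4 h5 h6,
    sum4 (fun j => X j q) j k l m h1 h2 h3 h4 h5 h6,
    sum4 (fun j => X j r) j k l m h1 h2 h3 h4 h5 h6]
  linear_combination (3 / 8) * e1 + (3 / 8) * e2 + (3 / 8) * e3 - (1 / 8) * e4 - (1 / 8) * e5 -
    (1 / 8) * e6

lemma exists_other (j k : Fin 4) (h : j ≠ k) :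
    ∃ l m, j ≠ l ∧ j ≠ m ∧ k ≠ l ∧ k ≠ m ∧ l ≠ m := by
  revert j k; decide

lemma exists_fourth (j k l : Fin 4) : ∃ m, j ≠ m ∧ k ≠ m ∧ l ≠ m := by
  revert j k l; decide

lemma exists_third (p q : Fin 3) : ∃ r, p ≠ r ∧ q ≠ r := by
  revert p q; decide

lemma exists_two (p : Fin 3) : ∃ q r, p ≠ q ∧ p ≠ r ∧ q ≠ r := by
  revert p; decide

lemma exists_three (j : Fin 4) : ∃ k l m, j ≠ k ∧ j ≠ l ∧ j ≠ m ∧ k ≠ l ∧ k ≠ m ∧ l ≠ m := by
  revert j; decide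

lemma alpha' (hX : Good X) (j : Fin 4) (i : Fin 3) (c1 : Cut X j i 1) (c2 : Cut X j i (-1)) :
    False := by
  obtain ⟨k, l, m, h1, h2, h3, h4, h5, h6⟩ := exists_three j
  obtain ⟨q, r, g1, g2, g3⟩ := exists_two i
  have e1 := hX.d j k h1
  have e2 := hX.d j l h2
  have e3 := hX.d j m h3
  have e4 := hX.d k l h4
  have e5 := hX.d k m h5
  have e6 := hX.d l m h6
  rw [sum3 _ i q r g1 g2 g3] at e1 e2 e3 e4 e5 e6
  have hb := be_eq hX j k l m h1 h2 h3 h4 h5 h6 i q r g1 g2 g3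
  unfold Cut at c1 c2
  rw [wv_eq X j k l m h1 h2 h3 h4 h5 h6] at c1 c2
  refine alpha ((3 * X j i - X k i - X l i - X m i) / 4) ((3 * X j q - X k q - X l q - X m q) / 4)
    ((3 * X j r - X k r - X l r - X m r) / 4) (X j i) (X j q) (X j r) (be X j) ?_ ?_
    (hX.b j i).1 (hX.b j i).2 (sq_le_of_abs (hX.b j q).1 (hX.b j q).2)
    (sq_le_of_abs (hX.b j r).1 (hX.b j r).2) ?_ ?_
  · linear_combination (3 / 16) * e1 + (3 / 16) * e2 + (3 / 16) * e3 - (1 / 16) * e4 -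
      (1 / 16) * e5 - (1 / 16) * e6
  · rw [hb]; ring
  · linarith
  · linarith

lemma beta1' (hX : Good X) (j k : Fin 4) (hjk : j ≠ k) (p q : Fin 3) (hpq : p ≠ q) (s1 s2 : ℝ)
    (hs1 : s1 = 1 ∨ s1 = -1) (hs2 : s2 = 1 ∨ s2 = -1) (c1 : Cut X j p s1) (c2 : Cut X k p (-s1))
    (c3 : Cut X j q s2) (c4 : Cut X k q (-s2)) : False := by
  obtain ⟨l, m, h2, h3, h4, h5, h6⟩ := exists_other j k hjk
  obtain ⟨r, g2, g3⟩ := exists_third p q
  have e1 := hX.d j k hjk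
  have e2 := hX.d j l h2
  have e3 := hX.d j m h3
  have e4 := hX.d k l h4
  have e5 := hX.d k m h5
  have e6 := hX.d l m h6
  rw [sum3 _ p q r hpq g2 g3] at e1 e2 e3 e4 e5 e6
  have hbj := be_eq hX j k l m hjk h2 h3 h4 h5 h6 p q r hpq g2 g3
  have hbk := be_eq hX k j l m hjk.symm h4 h5 h2 h3 h6 p q r hpq g2 g3
  unfold Cut at c1 c2 c3 c4
  rw [wv_eq X j k l m hjk h2 h3 h4 h5 h6] at c1 c3
  rw [wv_eq X k j l m hjk.symm h4 h5 h2 h3 h6] at c2 c4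
  refine beta1 ((X j p + X k p - X l p - X m p) / 2) ((X j q + X k q - X l q - X m q) / 2)
    ((X j r + X k r - X l r - X m r) / 2) ((X j p + X k p) / 2) ((X j q + X k q) / 2)
    ((X j r + X k r) / 2) (X j p - X k p) (X j q - X k q) (X j r - X k r) s1 s2 (be X j) (be X k)
    hs1 hs2 ?_ ?_ ?_ ?_ ?_ (mid_bound _ _ (hX.b j p) (hX.b k p)) (mid_bound _ _ (hX.b j q) (hX.b k q))
    (mid_bound _ _ (hX.b j r) (hX.b k r)) ?_ ?_ ?_ ?_
  · linear_combination (-1 / 4) * e1 + (1 / 4) * e2 + (1 / 4) * e3 + (1 / 4) * e4 +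
      (1 / 4) * e5 - (1 / 4) * e6
  · linear_combination e1
  · linear_combination (1 / 4) * e2 + (1 / 4) * e3 - (1 / 4) * e4 - (1 / 4) * e5
  · rw [hbj]; ring
  · rw [hbk]; ring
  · have : ((X j p + X k p - X l p - X m p) / 2 + (X j p - X k p)) / 2 =
      (3 * X j p - X k p - X l p - X m p) / 4 := by ring
    rw [this]; exact c1
  · have : ((X j p + X k p - X l p - X m p) / 2 - (X j p - X k p)) / 2 =
      (3 * X k p - X j p - X l p - X m p) / 4 := by ring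
    rw [this]; linarith
  · have : ((X j q + X k q - X l q - X m q) / 2 + (X j q - X k q)) / 2 =
      (3 * X j q - X k q - X l q - X m q) / 4 := by ring
    rw [this]; exact c3
  · have : ((X j q + X k q - X l q - X m q) / 2 - (X j q - X k q)) / 2 =
      (3 * X k q - X j q - X l q - X m q) / 4 := by ring
    rw [this]; linarith

lemma beta3' (hX : Good X) (j k l : Fin 4) (hjk : j ≠ k) (hjl : j ≠ l) (hkl : k ≠ l)
    (p q : Fin 3) (hpq : p ≠ q) (s1 s2 : ℝ)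
    (hs1 : s1 = 1 ∨ s1 = -1) (hs2 : s2 = 1 ∨ s2 = -1) (c1 : Cut X j p s1) (c2 : Cut X k p (-s1))
    (c3 : Cut X j q s2) (c4 : Cut X l q (-s2)) : False := by
  obtain ⟨m, h3, h5, h6⟩ := exists_fourth j k l
  obtain ⟨r, g2, g3⟩ := exists_third p q
  have e1 := hX.d j k hjk
  have e2 := hX.d j l hjl
  have e3 := hX.d j m h3
  have e4 := hX.d k l hkl
  have e5 := hX.d k m h5
  have e6 := hX.d l m h6
  rw [sum3 _ p q r hpq g2 g3] at e1 e2 e3 e4 e5 e6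
  have hbj := be_eq hX j k l m hjk hjl h3 hkl h5 h6 p q r hpq g2 g3
  have hbk := be_eq hX k j l m hjk.symm hkl h5 hjl h3 h6 p q r hpq g2 g3
  have hbl := be_eq hX l j k m hjl.symm hkl.symm h6 hjk h3 h5 p q r hpq g2 g3
  unfold Cut at c1 c2 c3 c4
  rw [wv_eq X j k l m hjk hjl h3 hkl h5 h6] at c1 c3
  rw [wv_eq X k j l m hjk.symm hkl h5 hjl h3 h6] at c2
  rw [wv_eq X l j k m hjl.symm hkl.symm h6 hjk h3 h5] at c4
  exact beta3 (X j p) (X j q) (X j r) (X k p) (X k q) (X k r) (X l p) (X l q) (X l r)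
    (X m p) (X m q) (X m r) s1 s2 hs1 hs2 e1 e2 e3 e4 e5 e6 (hX.b _ _) (hX.b _ _) (hX.b _ _)
    (hX.b _ _) (hX.b _ _) (hX.b _ _) (hX.b _ _) (hX.b _ _) (hX.b _ _) (be X j) (be X k) (be X l)
    hbj hbk hbl c1 c3 (by linarith) (by linarith)

lemma wv_sub_sq (hX : Good X) (j k : Fin 4) (hjk : j ≠ k) (i : Fin 3) :
    (wv X j i - wv X k i) ^ 2 ≤ 1 := by
  have h := hX.d j k hjk
  have h2 : (X j i - X k i) ^ 2 ≤ ∑ i, (X j i - X k i) ^ 2 :=
    Finset.single_le_sum (f := fun i => (X j i - X k i) ^ 2) (fun i _ => sq_nonneg _)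
      (Finset.mem_univ i)
  rw [h] at h2
  have : wv X j i - wv X k i = X j i - X k i := by unfold wv; ring
  rw [this]; exact h2

lemma sum_wv (X : Fin 4 → Fin 3 → ℝ) (i : Fin 3) : ∑ j, wv X j i = 0 := by
  simp only [wv, cg, Fin.sum_univ_four]
  ring

lemma sum_be (X : Fin 4 → Fin 3 → ℝ) : ∑ j, be X j = 1 := by
  have h0 := sum_wv X 0
  have h1 := sum_wv X 1
  have h2 := sum_wv X 2
  simp only [be, Fin.sum_univ_four, Fin.sum_univ_three] at h0 h1 h2 ⊢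
  linear_combination (-2) * cg X 0 * h0 - 2 * cg X 1 * h1 - 2 * cg X 2 * h2

lemma beta2' (hX : Good X) (j k l m : Fin 4) (h1 : j ≠ k) (h2 : j ≠ l) (h3 : j ≠ m)
    (h4 : k ≠ l) (h5 : k ≠ m) (h6 : l ≠ m) (p q : Fin 3) (s1 s2 : ℝ)
    (hs1 : s1 = 1 ∨ s1 = -1) (hs2 : s2 = 1 ∨ s2 = -1) (c1 : Cut X j p s1) (c2 : Cut X k p (-s1))
    (c3 : Cut X l q s2) (c4 : Cut X m q (-s2)) : False := by
  have hsum := sum_be X
  rw [sum4 _ j k l m h1 h2 h3 h4 h5 h6] at hsum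
  unfold Cut at c1 c2 c3 c4
  exact beta2 (be X j) (be X k) (be X l) (be X m) (wv X j p) (wv X k p) (wv X l q) (wv X m q)
    s1 s2 hs1 hs2 hsum (wv_sub_sq hX j k h1 p) (wv_sub_sq hX l m h6 q) c1 (by linarith) c3
    (by linarith)

/-- **Claim C.** For two axes, not all four points are cut. -/
theorem claimC (hX : Good X) (p q : Fin 3) (hpq : p ≠ q) (h1 : ∃ j, Cut X j p 1)
    (h2 : ∃ j, Cut X j p (-1)) (h3 : ∃ j, Cut X j q 1) (h4 : ∃ j, Cut X j q (-1)) : False := by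
  obtain ⟨j1, c1⟩ := h1
  obtain ⟨k1, c2⟩ := h2
  obtain ⟨j2, c3⟩ := h3
  obtain ⟨k2, c4⟩ := h4
  have n1 : j1 ≠ k1 := fun h => alpha' hX j1 p c1 (h ▸ c2)
  have n2 : j2 ≠ k2 := fun h => alpha' hX j2 q c3 (h ▸ c4)
  have o1 : (1 : ℝ) = 1 ∨ (1 : ℝ) = -1 := Or.inl rfl
  have o2 : (-1 : ℝ) = 1 ∨ (-1 : ℝ) = -1 := Or.inr rfl
  have c1' : Cut X j1 p (-(-1)) := by rw [neg_neg]; exact c1
  have c3' : Cut X j2 q (-(-1)) := by rw [neg_neg]; exact c3
  by_cases a1 : j1 = j2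
  · subst a1
    by_cases a2 : k1 = k2
    · subst a2
      exact beta1' hX j1 k1 n1 p q hpq 1 1 o1 o1 c1 c2 c3 c4
    · exact beta3' hX j1 k1 k2 n1 n2 a2 p q hpq 1 1 o1 o1 c1 c2 c3 c4
  by_cases a2 : j1 = k2
  · subst a2
    by_cases a3 : k1 = j2
    · subst a3
      exact beta1' hX j1 k1 n1 p q hpq 1 (-1) o1 o2 c1 c2 c4 c3'
    · exact beta3' hX j1 k1 j2 n1 n2.symm a3 p q hpq 1 (-1) o1 o2 c1 c2 c4 c3'
  by_cases a3 : k1 = j2
  · subst a3
    exact beta3' hX k1 j1 k2 n1.symm n2 a2 p q hpq (-1) 1 o2 o1 c2 c1' c3 c4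
  by_cases a4 : k1 = k2
  · subst a4
    exact beta3' hX k1 j1 j2 n1.symm n2.symm a1 p q hpq (-1) (-1) o2 o2 c2 c1' c4 c3'
  exact beta2' hX j1 k1 j2 k2 n1 a1 a2 a3 a4 n2 p q 1 1 o1 o1 c1 c2 c3 c4

end Pool.Agent.Helper14.TET
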